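import Mathlib

namespace Pool.Agent.Results.MP_e3e024_co.CubicClique

open Finset

/-- adjacency in the `ℓ`-th xor-power of the Kneser graph, for two distinct tuples:
`X i` and `Y i` are disjoint for an odd number of indices `i` -/
def XorAdj {ℓ n : ℕ} (X Y : Fin ℓ → Finset (Fin n)) : Prop :=
  Odd (univ.filter (fun i => Disjoint (X i) (Y i))).card

/-- the six linear forms `x, y - z, y, x - z, z, x - y` (edges of `K₄`) -/
def form {m : ℕ} [NeZero m] (p : ZMod m × ZMod m × ZMod m) : Fin 6 → ZMod m :=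
  ![p.1, p.2.1 - p.2.2, p.2.1, p.1 - p.2.2, p.2.2, p.1 - p.2.1]

/-- which form is used by coordinate `i` in slot `j` (slots `≥ 4` all behave like slot `4`) -/
def slot : Fin 5 → Fin 5 → Fin 6 :=
  ![![0, 1, 2, 3, 4], ![0, 1, 5, 5, 5], ![2, 3, 3, 3, 3], ![4, 4, 4, 4, 4], ![5, 5, 5, 5, 5]]

set_option synthInstance.maxSize 2000 in
theorem parity : ∀ b : Fin 6 → Bool,
    (b 0 → b 2 → b 5) → (b 0 → b 5 → b 2) → (b 2 → b 5 → b 0) →
    (b 0 → b 4 → b 3) → (b 0 → b 3 → b 4) → (b 3 → b 4 → b 0) →
    (b 2 → b 4 → b 1) → (b 2 → b 1 → b 4) → (b 1 → b 4 → b 2) →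
    (b 1 → b 3 → b 5) → (b 1 → b 5 → b 3) → (b 3 → b 5 → b 1) →
    ¬ (b 0 ∧ b 2 ∧ b 4) →
    Odd (univ.filter (fun i : Fin 5 => ∀ j, b (slot i j) = false)).card := by
  decide +kernel

theorem result (k : ℕ) (hk : 5 ≤ k) (n : ℕ) :
    ∃ C : Finset (Fin 5 → Finset (Fin n)),
      (∀ X ∈ C, ∀ i, (X i).card = k) ∧ (∀ X ∈ C, ∀ Y ∈ C, X ≠ Y → XorAdj X Y) ∧
      C.card = (n / k) ^ 3 := by
  rcases Nat.eq_zero_or_pos (n / k) with h0 | hpos
  · exact ⟨∅, by simp, by simp, by simp [h0]⟩
  set m := n / k with hm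
  haveI : NeZero m := ⟨by omega⟩
  have hle : k * m ≤ n := Nat.mul_div_le n k
  let emb : Fin k × ZMod m → Fin n := fun q =>
    Fin.castLE hle (finProdFinEquiv (q.1, (ZMod.finEquiv m).symm q.2))
  have hemb : Function.Injective emb := by
    intro a b h
    have h1 := finProdFinEquiv.injective (Fin.castLE_injective hle h)
    simp only [Prod.mk.injEq, EmbeddingLike.apply_eq_iff_eq] at h1
    exact Prod.ext h1.1 h1.2
  let cut : Fin k → Fin 5 := fun j => ⟨min j.val 4, by omega⟩
  have hcut : Function.Surjective cut := by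
    intro j
    exact ⟨⟨j.val, by have := j.2; omega⟩, Fin.ext (by have := j.2; simp only [cut]; omega)⟩
  let T : ZMod m × ZMod m × ZMod m → Fin 5 → Finset (Fin n) := fun p i =>
    univ.image (fun j : Fin k => emb (j, form p (slot i (cut j))))
  have hdis : ∀ p q i, Disjoint (T p i) (T q i) ↔
      ∀ j, decide (form p (slot i j) = form q (slot i j)) = false := by
    intro p q i
    rw [disjoint_left]
    constructor
    · intro h j
      obtain ⟨j, rfl⟩ := hcut j
      rw [decide_eq_false_iff_not]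
      intro e
      exact h (mem_image.2 ⟨j, mem_univ _, rfl⟩) (mem_image.2 ⟨j, mem_univ _, by rw [e]⟩)
    · intro h a h1 h2
      obtain ⟨j, -, rfl⟩ := mem_image.1 h1
      obtain ⟨j', -, e⟩ := mem_image.1 h2
      have e' := hemb e
      simp only [Prod.mk.injEq] at e'
      obtain ⟨rfl, e2⟩ := e'
      have := h (cut j')
      rw [decide_eq_false_iff_not] at this
      exact this e2.symm
  have hadj : ∀ p q, p ≠ q → XorAdj (T p) (T q) := by
    rintro ⟨x, y, z⟩ ⟨x', y', z'⟩ hpq
    unfold XorAdj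
    simp only [hdis]
    have f0 : ∀ a b c : ZMod m, form (a, b, c) 0 = a := fun _ _ _ => rfl
    have f1 : ∀ a b c : ZMod m, form (a, b, c) 1 = b - c := fun _ _ _ => rfl
    have f2 : ∀ a b c : ZMod m, form (a, b, c) 2 = b := fun _ _ _ => rfl
    have f3 : ∀ a b c : ZMod m, form (a, b, c) 3 = a - c := fun _ _ _ => rfl
    have f4 : ∀ a b c : ZMod m, form (a, b, c) 4 = c := fun _ _ _ => rfl
    have f5 : ∀ a b c : ZMod m, form (a, b, c) 5 = a - b := fun _ _ _ => rfl
    apply parity (fun t => decide (form (x, y, z) t = form (x', y', z') t)) <;>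
      simp only [f0, f1, f2, f3, f4, f5] <;> simp only [decide_eq_true_iff]
    all_goals first
      | (intro h1 h2; first | linear_combination h1 - h2 | linear_combination h1 + h2 | linear_combination h2 - h1)
      | (rintro ⟨rfl, rfl, rfl⟩; exact hpq rfl)
  have hinj : Function.Injective T := by
    intro p q h
    by_contra hne
    have h1 := hadj p q hne
    rw [h] at h1
    unfold XorAdj at h1
    have : univ.filter (fun i => Disjoint (T q i) (T q i)) = ∅ := by
      apply filter_false_of_mem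
      intro i _
      rw [hdis]
      intro h
      simpa using h 0
    rw [this] at h1
    simp at h1
  refine ⟨univ.image T, ?_, ?_, ?_⟩
  · intro X hX i
    obtain ⟨p, -, rfl⟩ := mem_image.1 hX
    simp only [T]
    rw [card_image_of_injective]
    · simp
    · intro a b h
      exact (Prod.ext_iff.1 (hemb h)).1
  · intro X hX Y hY hne
    obtain ⟨p, -, rfl⟩ := mem_image.1 hX
    obtain ⟨q, -, rfl⟩ := mem_image.1 hY
    exact hadj p q (fun e => hne (by rw [e]))
  · rw [card_image_of_injective _ hinj]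
    simp [ZMod.card]
    ring

end Pool.Agent.Results.MP_e3e024_co.CubicClique
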